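import Mathlib

set_option autoImplicit false

namespace Pool.Agent.Results.MP_89b943_al.Counter

open Module.End Submodule

section
variable {K V : Type} [Field K] [AddCommGroup V] [Module K V] (μ : V →ₗ[K] V →ₗ[K] V)

/-- `a` is a primitive axis for the fusion law `(F, s)`. -/
def Axis (F : Set K) (s : K → K → Set K) (a : V) : Prop :=
  μ a a = a ∧ ⨆ l ∈ F, eigenspace (μ a) l = ⊤ ∧ (∀ l ∈ F, ∀ n ∈ F, ∀ x ∈ eigenspace (μ a) l,
    ∀ y ∈ eigenspace (μ a) n, μ x y ∈ ⨆ r ∈ s l n, eigenspace (μ a) r) ∧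
  eigenspace (μ a) 1 = span K {a}

/-- `(V, X)` is a primitive axial algebra for the fusion law `(F, s)`. -/
def Axial (F : Set K) (s : K → K → Set K) (X : Set V) : Prop :=
  1 ∈ F ∧ (∀ l n, s l n ⊆ F) ∧ (∀ x y, μ x y = μ y x) ∧ (∀ a ∈ X, Axis μ F s a) ∧
  ∀ S : Submodule K V, X ⊆ S → (∀ x ∈ S, ∀ y ∈ S, μ x y ∈ S) → S = ⊤

/-- `J` is an ideal of the algebra `B`. -/
def Idl (B J : Submodule K V) : Prop := J ≤ B ∧ ∀ x ∈ B, ∀ y ∈ J, μ x y ∈ J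

/-- The block of `a`. -/
def blk (a : V) : Submodule K V := sInf {J | Idl μ ⊤ J ∧ a ∈ J}
end

/-- basis `a, b, u, w, w'` -/
def m : (Fin 5 → ℚ) →ₗ[ℚ] (Fin 5 → ℚ) →ₗ[ℚ] Fin 5 → ℚ := LinearMap.mk₂ ℚ
  (fun x y => ![x 0 * y 0, x 1 * y 1, x 0 * y 1 + x 1 * y 0 + 2 * (x 0 * y 2 + x 2 * y 0) +
    2 * (x 1 * y 2 + x 2 * y 1), x 2 * y 2, x 1 * y 3 + x 3 * y 1 + 2 * (x 1 * y 4 + x 4 * y 1)])
  (fun _ _ _ => by ext i; fin_cases i <;> simp <;> ring)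
  (fun _ _ _ => by ext i; fin_cases i <;> simp <;> ring)
  (fun _ _ _ => by ext i; fin_cases i <;> simp <;> ring)
  (fun _ _ _ => by ext i; fin_cases i <;> simp <;> ring)

lemma ax (a : Fin 5 → ℚ) (f g : (Fin 5 → ℚ) → Fin 5 → ℚ) (i : Fin 5) (h : m a a = a)
    (h0 : ∀ x, m a (f x) = 0) (h2 : ∀ x, m a (g x) = (2 : ℚ) • g x)
    (e : ∀ x, x = x i • a + f x + g x) : Axis m {0, 1, 2} (fun _ _ => {0, 1, 2}) a := by
  have T : ⨆ l ∈ ({0, 1, 2} : Set ℚ), eigenspace (m a) l = ⊤ := eq_top_iff.2 fun x _ => by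
    rw [e x]
    exact add_mem (add_mem (mem_iSup_of_mem 1 (mem_iSup_of_mem (by simp) (smul_mem _ _ (by simpa))))
      (mem_iSup_of_mem 0 (mem_iSup_of_mem (by simp) (by simp [h0]))))
      (mem_iSup_of_mem 2 (mem_iSup_of_mem (by simp) (by simp [h2])))
  refine ⟨h, T, fun _ _ _ _ _ _ _ _ => T ▸ mem_top, le_antisymm (fun x hx => ?_) (by simpa)⟩
  have a1 : m a x = x := by simpa using hx
  have a2 := congrArg (m a) (e x)
  simp only [map_add, map_smul, h, h0, h2, a1] at a2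
  have a3 := congrArg (m a) a2
  simp only [map_add, map_smul, h, h2, a1, map_zero] at a3
  exact mem_span_singleton.2 ⟨x i, by linear_combination (norm := module) a3 - (2 : ℚ) • a2⟩

theorem result : ∃ (μ : (Fin 5 → ℚ) →ₗ[ℚ] (Fin 5 → ℚ) →ₗ[ℚ] Fin 5 → ℚ) (F : Set ℚ)
    (s : ℚ → ℚ → Set ℚ) (X : Set (Fin 5 → ℚ)), Axial μ F s X ∧ ∃ a ∈ X,
      sSup {J | Idl μ (blk μ a) J ∧ J ≠ blk μ a} = blk μ a := by
  let e : Fin 5 → Fin 5 → ℚ := fun i => Pi.single i 1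
  have e2 : e 2 = m (e 1) (e 0) := by ext i; fin_cases i <;> simp [m, e]
  have e3 : e 3 = m (e 2) (e 2) := by ext i; fin_cases i <;> simp [m, e]
  have e4 : e 4 = m (e 1) (e 3) := by ext i; fin_cases i <;> simp [m, e]
  have d : ∀ x : Fin 5 → ℚ, x = x 0 • e 0 + x 1 • e 1 + x 2 • e 2 + x 3 • e 3 + x 4 • e 4 := fun x => by
    ext i; fin_cases i <;> simp [e]
  let p : Fin 5 → Submodule ℚ (Fin 5 → ℚ) := fun i => LinearMap.ker (.proj i)
  have B : blk m (e 0) = p 1 := le_antisymm (sInf_le ⟨⟨le_top, fun x _ y (h : y 1 = 0) => by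
    simp [p, m, h]⟩, by simp [p, e]⟩) (le_sInf fun J ⟨⟨_, h⟩, h0⟩ x (hx : x 1 = 0) => by
      have h2 := e2 ▸ h _ mem_top _ h0
      have h3 := e3 ▸ h _ mem_top _ h2
      have h4 := e4 ▸ h _ mem_top _ h3
      rw [d x, hx, zero_smul, add_zero]
      exact add_mem (add_mem (add_mem (smul_mem _ _ h0) (smul_mem _ _ h2)) (smul_mem _ _ h3))
        (smul_mem _ _ h4))
  refine ⟨m, {0, 1, 2}, fun _ _ => {0, 1, 2}, {e 0, e 1}, ⟨by simp, fun _ _ => le_rfl,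
    fun x y => by ext i; fin_cases i <;> simp [m] <;> ring, ?_, fun S h h' => ?_⟩, e 0, by simp, ?_⟩
  · rintro _ (rfl | rfl)
    · refine ax _ (fun x => ![0, x 1, -x 1 / 2, x 3, x 4]) (fun x => ![0, 0, x 2 + x 1 / 2, 0, 0]) 0
        ?_ (fun x => ?_) (fun x => ?_) fun x => ?_ <;> ext i <;> fin_cases i <;>
        simp [m, e, -Matrix.add_cons, -Matrix.cons_add] <;> ring
    · refine ax _ (fun x => ![x 0, 0, -x 0 / 2, x 3, -x 3 / 2])
        (fun x => ![0, 0, x 2 + x 0 / 2, 0, x 4 + x 3 / 2]) 1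
        ?_ (fun x => ?_) (fun x => ?_) fun x => ?_ <;> ext i <;> fin_cases i <;>
        simp [m, e, -Matrix.add_cons, -Matrix.cons_add] <;> ring
  · have h0 : e 0 ∈ S := h (by simp)
    have h1 : e 1 ∈ S := h (by simp)
    have h2 := e2 ▸ h' _ h1 _ h0
    have h3 := e3 ▸ h' _ h2 _ h2
    have h4 := e4 ▸ h' _ h1 _ h3
    exact eq_top_iff.2 fun x _ => d x ▸ add_mem (add_mem (add_mem (add_mem (smul_mem _ _ h0)
      (smul_mem _ _ h1)) (smul_mem _ _ h2)) (smul_mem _ _ h3)) (smul_mem _ _ h4)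
  rw [B]
  refine le_antisymm (sSup_le fun J h => h.1.1) fun x (hx : x 1 = 0) => ?_
  rw [← sub_add_cancel x (x 4 • e 4)]
  have k := fun J (h : Idl m (p 1) J ∧ J ≠ p 1) =>
    le_sSup (s := {J | Idl m (p 1) J ∧ J ≠ p 1}) (a := J) h
  refine add_mem (k (p 1 ⊓ p 4) ⟨⟨inf_le_left, fun x (h : x 1 = 0) y ⟨(h1 : y 1 = 0), _⟩ =>
    by simp [p, m, h, h1]⟩, fun h => by simpa [p, e] using h.ge (show e 4 ∈ p 1 by simp [p, e])⟩
    (by simp [p, e, hx])) (k (p 0 ⊓ p 1 ⊓ p 2 ⊓ p 3) ⟨⟨inf_le_left.trans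
      (inf_le_left.trans inf_le_right), fun x (h : x 1 = 0) y hy => ?_⟩,
      fun h => by simpa [p, e] using h.ge (show e 0 ∈ p 1 by simp [p, e])⟩ (by simp [p, e]))
  simp only [p, mem_inf, LinearMap.mem_ker, LinearMap.proj_apply] at hy
  simp [p, m, h, hy]

end Pool.Agent.Results.MP_89b943_al.Counter
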